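import Pool.Agent.Lib.MP_c80ac4_an.SD.Defs

/-!
# Row LD (helper3): large deviations

PROOF IN WORDS. For a real `β` (direction, `u = e β`) and `0 ≤ l ≤ 1` let
`S m = ∑ w < 3 ^ m, exp (l * ∑ j < m, Re (u * e (3 ^ j * (w / 3 ^ m))))`.
CLAIM `S m ≤ 3 ^ m * exp (l ^ 2 * m)`. Induction: `w = a * 3 ^ m + w'` with `a < 3`, `w' < 3 ^ m`
(for length `m + 1`). The summands with `j ≥ 1` are `e (3 ^ (j-1) * (w' / 3 ^ m))` (the difference of
the arguments is the integer `3 ^ (j-1) * a`), the summand `j = 0` is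
`e (w / 3 ^ (m+1)) = e (a / 3) * e (w' / 3 ^ (m+1))`. So with `ζ = u * e (w' / 3 ^ (m+1))`, `‖ζ‖ = 1`,
`∑ a < 3, exp (l Re (ζ e (a/3))) ≤ 3 * (1 + l ^ 2) ≤ 3 * exp (l ^ 2)`
(`exp t ≤ 1 + t + t ^ 2` for `|t| ≤ 1`, `Real.abs_exp_sub_one_sub_id_le`; `∑ a < 3, e (a/3) = 0`).
If `w` is not good, i.e. `‖∑ j < m, e (..)‖ > η / 2 * m`, then for one of the four directions
`β = 0, 1/4, 1/2, 3/4` we have `Re (u * ∑) ≥ η / 4 * m` (`‖z‖ ≤ |Re z| + |Im z|`), so with `l = η / 8`
the number of bad words is at most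
`4 * exp (- l * η / 4 * m) * 3 ^ m * exp (l ^ 2 * m) = 4 * 3 ^ m * exp (- η ^ 2 / 64 * m)`.
-/

namespace Forcing.SD

open Forcing.Ratio

/-- the exponential sum of a word -/
private noncomputable def Zw (m w : ℕ) : ℂ := ∑ j ∈ Finset.range m, e ((3 : ℝ) ^ j * ((w : ℝ) / 3 ^ m))

private theorem ld_cube : 1 + e (1 / 3) + e (2 / 3) = 0 := by
  have h1 : e (2 / 3) = e (1 / 3) ^ 2 := by
    rw [e_pow]; congr 1; norm_num
  have h2 : e (1 / 3) ^ 3 = 1 := by
    rw [e_pow, show ((3 : ℕ) : ℝ) * (1 / 3) = ((1 : ℕ) : ℝ) by norm_num, e_nat]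
  have h3 : e (1 / 3) - 1 ≠ 0 := by
    intro h
    have h4 : e (1 / 3) = 1 := sub_eq_zero.1 h
    unfold e at h4
    rw [Complex.exp_eq_one_iff] at h4
    obtain ⟨n, hn⟩ := h4
    have h5 : ((2 * Real.pi * (1 / 3) : ℝ) : ℂ) = ((n * (2 * Real.pi) : ℝ) : ℂ) := by
      have hI := Complex.I_ne_zero
      apply mul_right_cancel₀ hI
      rw [hn]
      push_cast
      ring
    have h6 : (2 * Real.pi * (1 / 3) : ℝ) = n * (2 * Real.pi) := by exact_mod_cast h5
    have h7 : (1 / 3 : ℝ) = n := by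
      have := Real.two_pi_pos.ne'
      apply mul_left_cancel₀ this
      linarith
    have h8 : (3 * n : ℝ) = 1 := by linarith
    have h9 : 3 * n = 1 := by exact_mod_cast h8
    omega
  have h10 : (e (1 / 3) - 1) * (1 + e (1 / 3) + e (1 / 3) ^ 2) = 0 := by
    have : (e (1 / 3) - 1) * (1 + e (1 / 3) + e (1 / 3) ^ 2) = e (1 / 3) ^ 3 - 1 := by ring
    rw [this, h2, sub_self]
  rw [h1]
  rcases mul_eq_zero.1 h10 with h | h
  · exact absurd h h3
  · exact h

private theorem ld_exp {t : ℝ} (ht : |t| ≤ 1) : Real.exp t ≤ 1 + t + t ^ 2 := by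
  have h := Real.abs_exp_sub_one_sub_id_le ht
  have h2 := (abs_le.1 h).2
  linarith

private theorem ld_three {l : ℝ} (hl0 : 0 ≤ l) (hl1 : l ≤ 1) {ζ : ℂ} (hζ : ‖ζ‖ = 1) :
    Real.exp (l * (ζ * e 0).re) + Real.exp (l * (ζ * e (1 / 3)).re) + Real.exp (l * (ζ * e (2 / 3)).re)
      ≤ 3 * Real.exp (l ^ 2) := by
  have hb : ∀ x : ℝ, |(ζ * e x).re| ≤ 1 := by
    intro x
    refine (Complex.abs_re_le_norm _).trans ?_
    rw [norm_mul, hζ, norm_e, one_mul]
  have hc : ∀ x : ℝ, Real.exp (l * (ζ * e x).re) ≤ 1 + l * (ζ * e x).re + l ^ 2 := by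
    intro x
    have h1 := hb x
    have h2 : |l * (ζ * e x).re| ≤ 1 := by
      rw [abs_mul, abs_of_nonneg hl0]
      exact mul_le_one₀ hl1 (abs_nonneg _) h1
    refine (ld_exp h2).trans ?_
    have h3 : (ζ * e x).re ^ 2 ≤ 1 := by
      rw [← sq_abs]
      exact pow_le_one₀ (abs_nonneg _) h1
    have h4 : (l * (ζ * e x).re) ^ 2 ≤ l ^ 2 := by
      rw [mul_pow]
      exact mul_le_of_le_one_right (sq_nonneg _) h3
    linarith
  have hs : (ζ * e 0).re + (ζ * e (1 / 3)).re + (ζ * e (2 / 3)).re = 0 := by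
    rw [← Complex.add_re, ← Complex.add_re, ← mul_add, ← mul_add]
    have h0 : e 0 = 1 := by
      have := e_nat 0
      simpa using this
    rw [h0, ld_cube, mul_zero, Complex.zero_re]
  have h5 := Real.add_one_le_exp (l ^ 2)
  have a1 := hc 0
  have a2 := hc (1 / 3)
  have a3 := hc (2 / 3)
  have h6 : l * (ζ * e 0).re + l * (ζ * e (1 / 3)).re + l * (ζ * e (2 / 3)).re = 0 := by
    rw [← mul_add, ← mul_add, hs, mul_zero]
  linarith

private theorem ld_step (m a w : ℕ) (u : ℂ) :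
    (u * Zw (m + 1) (a * 3 ^ m + w)).re =
      ((u * e ((w : ℝ) / 3 ^ (m + 1))) * e ((a : ℝ) / 3)).re + (u * Zw m w).re := by
  unfold Zw
  rw [Finset.sum_range_succ', mul_add, Complex.add_re, add_comm]
  have h3 : (3 : ℝ) ^ m ≠ 0 := by positivity
  congr 2
  · rw [mul_assoc, ← e_add]
    congr 2
    push_cast
    rw [pow_succ]
    field_simp
    ring
  · congr 1
    refine Finset.sum_congr rfl fun j _ => ?_
    have h1 : (3 : ℝ) ^ (j + 1) * (((a * 3 ^ m + w : ℕ) : ℝ) / 3 ^ (m + 1)) =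
        ((3 ^ j * a : ℕ) : ℝ) + (3 : ℝ) ^ j * ((w : ℝ) / 3 ^ m) := by
      push_cast
      rw [pow_succ, pow_succ]
      field_simp
    rw [h1, e_add, e_nat, one_mul]

private theorem ld_sum {l : ℝ} (hl0 : 0 ≤ l) (hl1 : l ≤ 1) {u : ℂ} (hu : ‖u‖ = 1) (m : ℕ) :
    ∑ w ∈ Finset.range (3 ^ m), Real.exp (l * (u * Zw m w).re) ≤ 3 ^ m * Real.exp (l ^ 2 * m) := by
  induction m with
  | zero => simp [Zw]
  | succ m ih =>
    have hsplit : ∑ w ∈ Finset.range (3 ^ (m + 1)), Real.exp (l * (u * Zw (m + 1) w).re) =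
        ∑ w ∈ Finset.range (3 ^ m), (Real.exp (l * (u * Zw (m + 1) (0 * 3 ^ m + w)).re) +
          Real.exp (l * (u * Zw (m + 1) (1 * 3 ^ m + w)).re) + Real.exp (l * (u * Zw (m + 1) (2 * 3 ^ m + w)).re)) := by
      rw [show 3 ^ (m + 1) = 3 ^ m + 3 ^ m + 3 ^ m by ring, Finset.sum_range_add, Finset.sum_range_add,
        Finset.sum_add_distrib, Finset.sum_add_distrib]
      congr 1
      · congr 1
        · refine Finset.sum_congr rfl fun w _ => ?_
          rw [zero_mul, zero_add]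
        · refine Finset.sum_congr rfl fun w _ => ?_
          rw [one_mul]
      · refine Finset.sum_congr rfl fun w _ => ?_
        rw [two_mul]
    rw [hsplit]
    have hle : ∀ w ∈ Finset.range (3 ^ m), (Real.exp (l * (u * Zw (m + 1) (0 * 3 ^ m + w)).re) +
          Real.exp (l * (u * Zw (m + 1) (1 * 3 ^ m + w)).re) + Real.exp (l * (u * Zw (m + 1) (2 * 3 ^ m + w)).re))
          ≤ 3 * Real.exp (l ^ 2) * Real.exp (l * (u * Zw m w).re) := by
      intro w _
      have hζ : ‖u * e ((w : ℝ) / 3 ^ (m + 1))‖ = 1 := by rw [norm_mul, hu, norm_e, one_mul]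
      have h := ld_three hl0 hl1 hζ
      have e0 : Real.exp (l * (u * Zw (m + 1) (0 * 3 ^ m + w)).re) =
          Real.exp (l * ((u * e ((w : ℝ) / 3 ^ (m + 1))) * e 0).re) * Real.exp (l * (u * Zw m w).re) := by
        rw [ld_step, mul_add, Real.exp_add]
        norm_num
      have e1 : Real.exp (l * (u * Zw (m + 1) (1 * 3 ^ m + w)).re) =
          Real.exp (l * ((u * e ((w : ℝ) / 3 ^ (m + 1))) * e (1 / 3)).re) * Real.exp (l * (u * Zw m w).re) := by
        rw [ld_step, mul_add, Real.exp_add]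
        norm_num
      have e2 : Real.exp (l * (u * Zw (m + 1) (2 * 3 ^ m + w)).re) =
          Real.exp (l * ((u * e ((w : ℝ) / 3 ^ (m + 1))) * e (2 / 3)).re) * Real.exp (l * (u * Zw m w).re) := by
        rw [ld_step, mul_add, Real.exp_add]
        norm_num
      rw [e0, e1, e2, ← add_mul, ← add_mul]
      exact mul_le_mul_of_nonneg_right h (Real.exp_pos _).le
    refine (Finset.sum_le_sum hle).trans ?_
    rw [← Finset.mul_sum]
    refine (mul_le_mul_of_nonneg_left ih (by positivity)).trans (le_of_eq ?_)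
    rw [pow_succ]
    push_cast
    rw [mul_add, mul_one, Real.exp_add]
    ring

private theorem ld_markov {η : ℝ} (hη : 0 < η) (hη1 : η ≤ 1) {u : ℂ} (hu : ‖u‖ = 1) (m : ℕ) :
    (((Finset.range (3 ^ m)).filter fun w => η / 4 * m ≤ (u * Zw m w).re).card : ℝ) ≤
      3 ^ m * Real.exp (-(η ^ 2 / 64 * m)) := by
  have h1 := ld_sum (l := η / 8) (by positivity) (by linarith) hu m
  have h2 : (((Finset.range (3 ^ m)).filter fun w => η / 4 * m ≤ (u * Zw m w).re).card : ℝ) * Real.exp (η ^ 2 / 32 * m) ≤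
      ∑ w ∈ Finset.range (3 ^ m), Real.exp (η / 8 * (u * Zw m w).re) := by
    rw [← nsmul_eq_mul, ← Finset.sum_const]
    refine (Finset.sum_le_sum fun w hw => ?_).trans
      (Finset.sum_le_sum_of_subset_of_nonneg (Finset.filter_subset _ _) fun w _ _ => (Real.exp_pos _).le)
    rw [Finset.mem_filter] at hw
    apply Real.exp_le_exp.2
    have := mul_le_mul_of_nonneg_left hw.2 (by positivity : 0 ≤ η / 8)
    refine le_trans (le_of_eq ?_) this
    ring
  have h3 := h2.trans h1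
  have h4 : Real.exp ((η / 8) ^ 2 * m) = Real.exp (-(η ^ 2 / 64 * m)) * Real.exp (η ^ 2 / 32 * m) := by
    rw [← Real.exp_add]; congr 1; ring
  rw [h4, ← mul_assoc] at h3
  exact le_of_mul_le_mul_right h3 (Real.exp_pos _)

private theorem ld_dir {z : ℂ} {c : ℝ} (h : 2 * c < ‖z‖) :
    c ≤ (1 * z).re ∨ c ≤ (-1 * z).re ∨ c ≤ (Complex.I * z).re ∨ c ≤ (-Complex.I * z).re := by
  by_contra hcon
  push Not at hcon
  obtain ⟨h1, h2, h3, h4⟩ := hcon
  simp only [one_mul, neg_mul, Complex.neg_re, Complex.mul_re, Complex.I_re, Complex.I_im, zero_mul, zero_sub,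
    neg_neg] at h1 h2 h3 h4
  have h5 := Complex.norm_le_abs_re_add_abs_im z
  have h6 : |z.re| < c := abs_lt.2 ⟨by linarith, h1⟩
  have h7 : |z.im| < c := abs_lt.2 ⟨by linarith, h4⟩
  linarith

theorem good_card (m : ℕ) {η : ℝ} (hη : 0 < η) (hη1 : η ≤ 1) :
    (1 - 4 * Real.exp (-(η ^ 2 / 64 * m))) * 3 ^ m ≤ (good m η).card := by
  classical
  set B : ℂ → Finset ℕ := fun u => (Finset.range (3 ^ m)).filter fun w => η / 4 * m ≤ (u * Zw m w).re with hB
  have hcov : Finset.range (3 ^ m) ⊆ good m η ∪ (B 1 ∪ (B (-1) ∪ (B Complex.I ∪ B (-Complex.I)))) := by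
    intro w hw
    by_cases hg : w ∈ good m η
    · exact Finset.mem_union_left _ hg
    · apply Finset.mem_union_right
      have h1 : η / 2 * m < ‖Zw m w‖ := by
        by_contra hcon
        apply hg
        unfold good
        rw [Finset.mem_filter]
        exact ⟨hw, not_lt.1 hcon⟩
      have h2 := ld_dir (z := Zw m w) (c := η / 4 * m) (by linarith)
      rw [Finset.mem_union, Finset.mem_union, Finset.mem_union]
      simp only [hB, Finset.mem_filter]
      rcases h2 with h | h | h | h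
      · exact Or.inl ⟨hw, h⟩
      · exact Or.inr (Or.inl ⟨hw, h⟩)
      · exact Or.inr (Or.inr (Or.inl ⟨hw, h⟩))
      · exact Or.inr (Or.inr (Or.inr ⟨hw, h⟩))
  have hc1 : (3 : ℝ) ^ m ≤ (good m η).card + ((B 1).card + ((B (-1)).card + ((B Complex.I).card + (B (-Complex.I)).card))) := by
    have h1 := Finset.card_le_card hcov
    rw [Finset.card_range] at h1
    have h2 := Finset.card_union_le (good m η) (B 1 ∪ (B (-1) ∪ (B Complex.I ∪ B (-Complex.I))))
    have h3 := Finset.card_union_le (B 1) (B (-1) ∪ (B Complex.I ∪ B (-Complex.I)))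
    have h4 := Finset.card_union_le (B (-1)) (B Complex.I ∪ B (-Complex.I))
    have h5 := Finset.card_union_le (B Complex.I) (B (-Complex.I))
    have h6 : 3 ^ m ≤ (good m η).card + ((B 1).card + ((B (-1)).card + ((B Complex.I).card + (B (-Complex.I)).card))) := by
      omega
    exact_mod_cast h6
  have b1 := ld_markov hη hη1 (u := 1) (by simp) m
  have b2 := ld_markov hη hη1 (u := -1) (by simp) m
  have b3 := ld_markov hη hη1 (u := Complex.I) (by simp) m
  have b4 := ld_markov hη hη1 (u := -Complex.I) (by simp) m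
  have hb1 : ((B 1).card : ℝ) ≤ 3 ^ m * Real.exp (-(η ^ 2 / 64 * m)) := b1
  have hb2 : ((B (-1)).card : ℝ) ≤ 3 ^ m * Real.exp (-(η ^ 2 / 64 * m)) := b2
  have hb3 : ((B Complex.I).card : ℝ) ≤ 3 ^ m * Real.exp (-(η ^ 2 / 64 * m)) := b3
  have hb4 : ((B (-Complex.I)).card : ℝ) ≤ 3 ^ m * Real.exp (-(η ^ 2 / 64 * m)) := b4
  rw [sub_mul, one_mul]
  linarith

theorem good_zero (η : ℝ) : good 0 η = {0} := by
  unfold good
  ext w
  simp

end Forcing.SD
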