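import Pool.Agent.Lib.MP_c80ac4_an.SD.Fou
import Pool.Agent.Lib.MP_c80ac4_an.SD.LD
import Pool.Agent.Lib.MP_c80ac4_an.HM.Pisot

/-!
# Row BD (helper3): the two bounds for the factors

PROOF IN WORDS. Write `L k = s (k+1) - (s k + m k)`, `fac` is the mean over `idx` of `e (n pt)`.
`bd0`: `‖fac‖ ≤ 1` (triangle inequality).
`bd1`: `fac_le` gives `‖fac k n‖ ≤ ‖av (3 ^ L k) x‖`, `x = n / 3 ^ s (k+1) ∈ (0, 1/2]`. By `av_mul`
`‖av (3 ^ L) x‖ ≤ 2 / (3 ^ L * ‖1 - e x‖)` and `‖1 - e x‖ ≥ 4 x` (`HM.four_mul_le` in `HM/Pisot.lean`,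
import it or copy), so it is at most `3 ^ (s (k+1) - L k) / (2 n) = 3 ^ (s k + m k) / (2 n)`.
`bd2`: let `A = ‖1 - e (n / 3 ^ s (k+1))‖`, `δ = 4 exp (-(η (k+1) ^ 2 / 64 * m (k+1))) ≤ 1/4`
(`Par.big`). `fac_full` with `M = m (k+1)`, `L = L (k+1)`, `s' = s (k+2)`, `M + L = s (k+2) - s (k+1)`,
`good_card`, gives `‖fac (k+1) n‖ ≤ 2 (‖av (3 ^ (s (k+2) - s (k+1))) y‖ + δ)`, `y = n / 3 ^ s (k+2)`, and
`av_mul`: `‖av ..‖ * ‖1 - e y‖ = A / 3 ^ (s (k+2) - s (k+1))` (because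
`3 ^ (s (k+2) - s (k+1)) * y = n / 3 ^ s (k+1)`), `‖1 - e y‖ ≥ 4 y`, so
`‖av ..‖ ≤ A * 3 ^ s (k+1) / (4 n)`. Also `‖fac k n‖ * A ≤ 2 / 3 ^ (L k) = 2 * 3 ^ (s k + m k) / 3 ^ s (k+1)`
(`fac_le`, `av_mul`, the right side of `av_mul` is at most `2 / N`). Hence (and `‖fac k n‖ ≤ 1`)
`‖fac k n‖ * ‖fac (k+1) n‖ ≤ 2 * (2 * 3 ^ (s k + m k) / 3 ^ s (k+1)) * 3 ^ s (k+1) / (4 n) + 2 δ`,
which is the claim. (No division by `A` is needed.)
-/

namespace Forcing.SD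

open Forcing.Ratio

/-- the factor of step `k` at the frequency `n` -/
noncomputable def fac (s m : ℕ → ℕ) (η : ℕ → ℝ) (k n : ℕ) : ℂ :=
  ((idx s m η k).card : ℂ)⁻¹ * ∑ p ∈ idx s m η k, e (n * pt s m k p)

theorem bd0 (s m : ℕ → ℕ) (η : ℕ → ℝ) (k n : ℕ) : ‖fac s m η k n‖ ≤ 1 := by
  unfold fac
  rw [norm_mul, norm_inv, Complex.norm_natCast]
  have h1 : ‖∑ p ∈ idx s m η k, e (n * pt s m k p)‖ ≤ ((idx s m η k).card : ℝ) := by
    refine (norm_sum_le _ _).trans ?_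
    simp only [norm_e, Finset.sum_const, nsmul_eq_mul, mul_one]
    exact le_rfl
  have h2 : (0 : ℝ) ≤ ((idx s m η k).card : ℝ)⁻¹ := by positivity
  refine (mul_le_mul_of_nonneg_left h1 h2).trans ?_
  exact inv_mul_le_one

private theorem bd_one_sub {x : ℝ} (hx : 0 ≤ x) (hx2 : x ≤ 1 / 2) : 4 * x ≤ ‖1 - e x‖ := by
  have h := HM.four_mul_le (y := x) (by rw [abs_of_nonneg hx]; exact hx2)
  rw [abs_of_nonneg hx, norm_sub_rev] at h
  exact h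

private theorem bd_two (z : ℝ) : ‖1 - e z‖ ≤ 2 := by
  refine (norm_sub_le _ _).trans ?_
  rw [norm_e, norm_one]
  norm_num

private theorem bd_av (N : ℕ) (x : ℝ) (hN : 0 < N) : ‖av N x‖ * ‖1 - e x‖ ≤ 2 / N := by
  rw [av_mul N x hN]
  have hN' : (0 : ℝ) < N := by exact_mod_cast hN
  exact div_le_div_of_nonneg_right (bd_two _) hN'.le

private theorem bd_fac (s m : ℕ → ℕ) (η : ℕ → ℝ) (k n : ℕ) :
    ‖fac s m η k n‖ ≤ ‖av (3 ^ (s (k + 1) - (s k + m k))) (n / 3 ^ s (k + 1))‖ :=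
  fac_le (good (m k) (η k)) (s (k + 1) - (s k + m k)) (s (k + 1)) n

private theorem bd_pow {s m : ℕ → ℕ} {η : ℕ → ℝ} (h : Par s m η) (k : ℕ) :
    ((3 : ℝ) ^ (s (k + 1) - (s k + m k))) * 3 ^ (s k + m k) = 3 ^ s (k + 1) := by
  rw [← pow_add]
  congr 1
  have := h.grow k
  omega

theorem bd1 {s m : ℕ → ℕ} {η : ℕ → ℝ} (h : Par s m η) (k : ℕ) {n : ℕ} (hn : 1 ≤ n)
    (hn2 : 2 * n ≤ 3 ^ s (k + 1)) : ‖fac s m η k n‖ ≤ 3 ^ (s k + m k) / (2 * n) := by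
  have hn' : (1 : ℝ) ≤ n := by exact_mod_cast hn
  have hn2' : 2 * (n : ℝ) ≤ 3 ^ s (k + 1) := by exact_mod_cast hn2
  have h3 : (0 : ℝ) < 3 ^ s (k + 1) := by positivity
  have h1 := bd_fac s m η k n
  have h2 := bd_av (3 ^ (s (k + 1) - (s k + m k))) ((n : ℝ) / 3 ^ s (k + 1)) (by positivity)
  have h4 := bd_one_sub (x := (n : ℝ) / 3 ^ s (k + 1)) (by positivity)
    (by rw [div_le_iff₀ h3]; linarith)
  have h5 := bd_pow h k
  push_cast at h2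
  set a := ‖av (3 ^ (s (k + 1) - (s k + m k))) ((n : ℝ) / 3 ^ s (k + 1))‖ with ha
  have ha0 : 0 ≤ a := norm_nonneg _
  have h6 : a * (4 * ((n : ℝ) / 3 ^ s (k + 1))) ≤ 2 / 3 ^ (s (k + 1) - (s k + m k)) :=
    (mul_le_mul_of_nonneg_left h4 ha0).trans h2
  refine h1.trans ?_
  rw [le_div_iff₀ (by positivity)]
  have hL : (0 : ℝ) < 3 ^ (s (k + 1) - (s k + m k)) := by positivity
  rw [le_div_iff₀ hL] at h6
  rw [← h5] at h6
  have hm : (0 : ℝ) < 3 ^ (s k + m k) := by positivity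
  have h7 : a * (4 * ((n : ℝ) / (3 ^ (s (k + 1) - (s k + m k)) * 3 ^ (s k + m k)))) *
      3 ^ (s (k + 1) - (s k + m k)) = a * (4 * n) / 3 ^ (s k + m k) := by
    field_simp
  rw [h7, div_le_iff₀ hm] at h6
  linarith

theorem bd2 {s m : ℕ → ℕ} {η : ℕ → ℝ} (h : Par s m η) (k : ℕ) {n : ℕ} (hn : 1 ≤ n)
    (hn2 : 2 * n ≤ 3 ^ s (k + 2)) : ‖fac s m η k n‖ * ‖fac s m η (k + 1) n‖ ≤
      3 ^ (s k + m k) / n + 8 * Real.exp (-(η (k + 1) ^ 2 / 64 * m (k + 1))) := by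
  have hn' : (1 : ℝ) ≤ n := by exact_mod_cast hn
  have hn2' : 2 * (n : ℝ) ≤ 3 ^ s (k + 2) := by exact_mod_cast hn2
  have h3 : (0 : ℝ) < 3 ^ s (k + 2) := by positivity
  set E := Real.exp (-(η (k + 1) ^ 2 / 64 * m (k + 1))) with hE
  have hE0 : 0 < E := Real.exp_pos _
  have hbig : 16 * E ≤ 1 := h.big k
  set A := ‖1 - e ((n : ℝ) / 3 ^ s (k + 1))‖ with hA
  have hA0 : 0 ≤ A := norm_nonneg _
  set a := ‖fac s m η k n‖ with ha
  have ha0 : 0 ≤ a := norm_nonneg _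
  have ha1 : a ≤ 1 := bd0 s m η k n
  -- first factor
  have h5 := bd_pow h k
  have h6 : a * A ≤ 2 / 3 ^ (s (k + 1) - (s k + m k)) := by
    have h7 := bd_av (3 ^ (s (k + 1) - (s k + m k))) ((n : ℝ) / 3 ^ s (k + 1)) (by positivity)
    push_cast at h7
    exact (mul_le_mul_of_nonneg_right (bd_fac s m η k n) hA0).trans h7
  -- second factor
  have hg := h.grow (k + 1)
  have hML : m (k + 1) + (s (k + 1 + 1) - (s (k + 1) + m (k + 1))) = s (k + 2) - s (k + 1) := by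
    show m (k + 1) + (s (k + 2) - (s (k + 1) + m (k + 1))) = s (k + 2) - s (k + 1)
    have hg' : 8 * (s (k + 1) + m (k + 1)) + 1 ≤ s (k + 2) := hg
    omega
  have hW : good (m (k + 1)) (η (k + 1)) ⊆ Finset.range (3 ^ m (k + 1)) := by
    unfold good
    exact Finset.filter_subset _ _
  have h8 : ‖fac s m η (k + 1) n‖ ≤
      2 * (‖av (3 ^ (s (k + 2) - s (k + 1))) (n / 3 ^ s (k + 2))‖ + 4 * E) := by
    have h9 := fac_full (good (m (k + 1)) (η (k + 1))) (m (k + 1))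
      (s (k + 1 + 1) - (s (k + 1) + m (k + 1))) (s (k + 1 + 1)) n (δ := 4 * E) hW
      (by linarith) (by linarith)
      (good_card (m (k + 1)) (h.η0 k) (h.η1 k))
    rw [hML] at h9
    exact h9
  set v := ‖av (3 ^ (s (k + 2) - s (k + 1))) ((n : ℝ) / 3 ^ s (k + 2))‖ with hv
  have hv0 : 0 ≤ v := norm_nonneg _
  have hs : (3 : ℝ) ^ (s (k + 2) - s (k + 1)) * 3 ^ s (k + 1) = 3 ^ s (k + 2) := by
    rw [← pow_add]
    congr 1
    have hg' : 8 * (s (k + 1) + m (k + 1)) + 1 ≤ s (k + 2) := hg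
    omega
  have hN2 : (0 : ℝ) < 3 ^ (s (k + 2) - s (k + 1)) := by positivity
  have hS1 : (0 : ℝ) < 3 ^ s (k + 1) := by positivity
  have h10 : v * ‖1 - e ((n : ℝ) / 3 ^ s (k + 2))‖ = A / 3 ^ (s (k + 2) - s (k + 1)) := by
    have h11 := av_mul (3 ^ (s (k + 2) - s (k + 1))) ((n : ℝ) / 3 ^ s (k + 2)) (by positivity)
    push_cast at h11
    rw [h11]
    congr 3
    congr 1
    rw [← hs]
    field_simp
  have h12 := bd_one_sub (x := (n : ℝ) / 3 ^ s (k + 2)) (by positivity)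
    (by rw [div_le_iff₀ h3]; linarith)
  have h13 : v * (4 * n) ≤ A * 3 ^ s (k + 1) := by
    have h14 : v * (4 * ((n : ℝ) / 3 ^ s (k + 2))) ≤ A / 3 ^ (s (k + 2) - s (k + 1)) :=
      (mul_le_mul_of_nonneg_left h12 hv0).trans h10.le
    rw [le_div_iff₀ hN2, ← hs] at h14
    have h15 : v * (4 * ((n : ℝ) / (3 ^ (s (k + 2) - s (k + 1)) * 3 ^ s (k + 1)))) *
        3 ^ (s (k + 2) - s (k + 1)) = v * (4 * n) / 3 ^ s (k + 1) := by
      field_simp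
    rw [h15, div_le_iff₀ hS1] at h14
    exact h14
  -- combine
  have h16 : a * v * (4 * n) ≤ 2 * 3 ^ (s k + m k) := by
    have hL : (0 : ℝ) < 3 ^ (s (k + 1) - (s k + m k)) := by positivity
    have h17 : a * A * 3 ^ s (k + 1) ≤ 2 * 3 ^ (s k + m k) := by
      rw [le_div_iff₀ hL] at h6
      have hm : (0 : ℝ) ≤ 3 ^ (s k + m k) := by positivity
      calc a * A * 3 ^ s (k + 1) = a * A * 3 ^ (s (k + 1) - (s k + m k)) * 3 ^ (s k + m k) := by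
            rw [← h5]; ring
        _ ≤ 2 * 3 ^ (s k + m k) := mul_le_mul_of_nonneg_right h6 hm
    calc a * v * (4 * n) = a * (v * (4 * n)) := by ring
      _ ≤ a * (A * 3 ^ s (k + 1)) := mul_le_mul_of_nonneg_left h13 ha0
      _ = a * A * 3 ^ s (k + 1) := by ring
      _ ≤ _ := h17
  have h18 : 2 * (a * v) ≤ 3 ^ (s k + m k) / n := by
    rw [le_div_iff₀ (by linarith)]
    linarith
  have h19 : a * (4 * E) ≤ 4 * E := by
    have := mul_le_mul_of_nonneg_right ha1 (by linarith : 0 ≤ 4 * E)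
    linarith
  calc a * ‖fac s m η (k + 1) n‖ ≤ a * (2 * (v + 4 * E)) := mul_le_mul_of_nonneg_left h8 ha0
    _ = 2 * (a * v) + 2 * (a * (4 * E)) := by ring
    _ ≤ 3 ^ (s k + m k) / n + 8 * E := by linarith

end Forcing.SD
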