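import Pool.Agent.Lib.MP_c80ac4_an.SD.Defs

/-!
# Row CV (helper3): convolution with a uniform distribution

PROOF IN WORDS. `cv μ t y = (card t)⁻¹ • ∑ p ∈ t, μ.map (fun z => z * e (y p))` (see `SD/Defs.lean`).
Each map is continuous (measurable), `Measure.isProbabilityMeasure_map`, the total mass is
`(card t)⁻¹ * card t = 1`. The integral of `z ^ n` with respect to a finite sum of measures is the sum
of the integrals (`integral_finset_sum_measure` or the like, `integral_smul_measure`, `integral_map`),
`(z * e (y p)) ^ n = z ^ n * e (n * y p)` by `e_pow` (in `Local/Ratio.lean`); everything is bounded by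
`1` in norm almost everywhere, hence integrable. Almost everywhere statements: `ae_smul_measure`,
`ae_finset_sum_measure_iff`, `ae_map_iff`.
-/

namespace Forcing.SD

open Forcing.Ratio MeasureTheory

private theorem cv_meas {ι : Type} (y : ι → ℝ) (i : ι) : Measurable fun z : ℂ => z * e (y i) :=
  (continuous_id.mul continuous_const).measurable

theorem cv_prob {ι : Type} {μ : Measure ℂ} [IsProbabilityMeasure μ] {t : Finset ι}
    (ht : t.Nonempty) (y : ι → ℝ) : IsProbabilityMeasure (cv μ t y) := by
  constructor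
  unfold cv
  rw [Measure.smul_apply, Measure.finsetSum_apply]
  have h1 : ∀ i ∈ t, (μ.map fun z => z * e (y i)) Set.univ = 1 := fun i _ => by
    rw [Measure.map_apply (cv_meas y i) MeasurableSet.univ, Set.preimage_univ]
    exact measure_univ
  rw [Finset.sum_congr rfl h1, Finset.sum_const, nsmul_eq_mul, mul_one, smul_eq_mul]
  refine ENNReal.inv_mul_cancel ?_ (ENNReal.natCast_ne_top _)
  exact_mod_cast (Finset.card_pos.2 ht).ne'

theorem cv_ae {ι : Type} {μ : Measure ℂ} {t : Finset ι} {y : ι → ℝ} {p q : ℂ → Prop}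
    (hp : ∀ᵐ z ∂μ, p z) (hq : MeasurableSet {z | q z})
    (h : ∀ z, p z → ∀ i ∈ t, q (z * e (y i))) : ∀ᵐ z ∂(cv μ t y), q z := by
  unfold cv
  refine Measure.ae_smul_measure ?_ _
  rw [ae_finsetSum_measure_iff]
  intro i hi
  rw [ae_map_iff (cv_meas y i).aemeasurable hq]
  filter_upwards [hp] with z hz using h z hz i hi

theorem cv_int {ι : Type} {μ : Measure ℂ} [IsProbabilityMeasure μ] (hμ : ∀ᵐ z ∂μ, ‖z‖ = 1)
    {t : Finset ι} (ht : t.Nonempty) (y : ι → ℝ) (n : ℕ) :
    ∫ z, z ^ n ∂(cv μ t y) = ((t.card : ℂ)⁻¹ * ∑ i ∈ t, e (n * y i)) * ∫ z, z ^ n ∂μ := by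
  have hint : ∀ i ∈ t, Integrable (fun z : ℂ => z ^ n) (μ.map fun z => z * e (y i)) := by
    intro i _
    have : IsProbabilityMeasure (μ.map fun z => z * e (y i)) :=
      Measure.isProbabilityMeasure_map (cv_meas y i).aemeasurable
    refine Integrable.of_bound (continuous_pow n).aestronglyMeasurable 1 ?_
    rw [ae_map_iff (cv_meas y i).aemeasurable (measurableSet_le (by fun_prop) measurable_const)]
    filter_upwards [hμ] with z hz
    rw [norm_pow, norm_mul, hz, norm_e, one_mul, one_pow]
  have h1 : ∀ i ∈ t, ∫ z, z ^ n ∂(μ.map fun z => z * e (y i)) = e (n * y i) * ∫ z, z ^ n ∂μ := by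
    intro i _
    rw [integral_map (cv_meas y i).aemeasurable (continuous_pow n).aestronglyMeasurable,
      ← integral_const_mul]
    refine integral_congr_ae (Filter.Eventually.of_forall fun z => ?_)
    simp only
    rw [mul_pow, e_pow, mul_comm]
  unfold cv
  rw [integral_smul_measure, integral_finsetSum_measure hint, Finset.sum_congr rfl h1, ← Finset.sum_mul,
    ENNReal.toReal_inv, ENNReal.toReal_natCast, Complex.real_smul]
  push_cast
  ring

end Forcing.SD
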