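import Pool.Agent.Lib.MP_c80ac4_an.HM.Transfer

/-! # Sharpness of the decay condition: definitions -/

namespace Forcing.SD

open Forcing.Ratio MeasureTheory

/-- the mean of the first `N` multiples -/
noncomputable def av (N : ℕ) (x : ℝ) : ℂ := (N : ℂ)⁻¹ * ∑ c ∈ Finset.range N, e (c * x)

/-- the words of length `m` in the digits `0, 1, 2` with a small average -/
noncomputable def good (m : ℕ) (η : ℝ) : Finset ℕ := by
  classical
  exact (Finset.range (3 ^ m)).filter fun w =>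
    ‖∑ j ∈ Finset.range m, e ((3 : ℝ) ^ j * ((w : ℝ) / 3 ^ m))‖ ≤ η / 2 * m

/-- convolution of `μ` with the uniform distribution on the points `e (y p)`, `p ∈ t` -/
noncomputable def cv {ι : Type} (μ : Measure ℂ) (t : Finset ι) (y : ι → ℝ) : Measure ℂ :=
  ((t.card : ENNReal))⁻¹ • ∑ p ∈ t, μ.map fun z => z * e (y p)

/-- the polynomial of block `k` -/
noncomputable def P (s m : ℕ) (z : ℂ) : ℂ := (m : ℂ)⁻¹ * ∑ j ∈ Finset.range m, z ^ (3 ^ (s + j))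

/-- Parameters: blocks of positions `[s k, s k + m k)`, free positions `[s k + m k, s (k+1))`. -/
structure Par (s m : ℕ → ℕ) (η : ℕ → ℝ) : Prop where
  s0 : s 0 = 0
  m0 : m 0 = 0
  grow : ∀ k, 8 * (s k + m k) + 1 ≤ s (k + 1)
  ms : ∀ k, s (k + 1) ≤ m (k + 1)
  η0 : ∀ k, 0 < η (k + 1)
  η1 : ∀ k, η (k + 1) ≤ 1
  mη : ∀ k, 7 ≤ η (k + 1) * m (k + 1)
  big : ∀ k, 16 * Real.exp (-(η (k + 1) ^ 2 / 64 * m (k + 1))) ≤ 1
  lim : Filter.Tendsto η Filter.atTop (nhds 0)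

/-- the index set of step `k`: words of block `k` and free digits -/
noncomputable def idx (s m : ℕ → ℕ) (η : ℕ → ℝ) (k : ℕ) : Finset (ℕ × ℕ) :=
  good (m k) (η k) ×ˢ Finset.range (3 ^ (s (k + 1) - (s k + m k)))

/-- the points of step `k` -/
noncomputable def pt (s m : ℕ → ℕ) (k : ℕ) (p : ℕ × ℕ) : ℝ :=
  ((p.1 * 3 ^ (s (k + 1) - (s k + m k)) + p.2 : ℕ) : ℝ) / 3 ^ s (k + 1)

/-- the measures -/
noncomputable def mu (s m : ℕ → ℕ) (η : ℕ → ℝ) : ℕ → Measure ℂ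
  | 0 => Measure.dirac 1
  | k + 1 => cv (mu s m η k) (idx s m η k) (pt s m k)

/-- the closed set -/
def E (s m : ℕ → ℕ) (η : ℕ → ℝ) : Set ℂ :=
  {z | ‖z‖ = 1 ∧ ∀ k, ‖P (s (k + 1)) (m (k + 1)) z‖ ≤ η (k + 1)}

end Forcing.SD
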