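import Pool.Agent.Lib.MP_c80ac4_an.SD.Defs

/-!
# Row FO (helper3): means of characters over blocks of digits

PROOF IN WORDS. `av N x = (1/N) ∑ c < N, e (c x)`.
`av_mul`: geometric sum, `(∑ c < N, e x ^ c) (1 - e x) = 1 - e x ^ N` (`mul_neg_geom_sum`,
`e_pow`).
`av_le_one`: triangle inequality, `norm_e`.
`fac_eq`: the sum over `W ×ˢ range (3 ^ L)` is the product of the sums
(`Finset.sum_product`, `e_add`), the cardinality of the product is the product.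
`fac_le`: the mean over `W` has norm at most `1` (if `W` is empty both sides are fine: the left side is
`0`).
`fac_full`: let `N = 3 ^ (M + L)`, `f b = e (n b / 3 ^ s')`, `G = {w * 3 ^ L + c : w ∈ W, c < 3 ^ L}`,
a subset of `range N` (the map `(w, c) ↦ w * 3 ^ L + c` is injective) with at least
`(1 - δ) N` elements. `∑ b < N, f b = ∑ b ∈ G, f b + ∑ b ∈ range N \ G, f b`, the last sum has norm at
most `δ N`, so the mean over `G` has norm at most `(N ‖av‖ + δ N) / ((1 - δ) N) ≤ 2 (‖av‖ + δ)`.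
-/

namespace Forcing.SD

open Forcing.Ratio MeasureTheory

private theorem fou_sum (N : ℕ) (x : ℝ) :
    ∑ c ∈ Finset.range N, e (c * x) = ∑ c ∈ Finset.range N, e x ^ c :=
  Finset.sum_congr rfl fun c _ => (e_pow c x).symm

theorem av_mul (N : ℕ) (x : ℝ) (hN : 0 < N) :
    ‖av N x‖ * ‖1 - e x‖ = ‖1 - e (N * x)‖ / N := by
  have _ := hN
  have h1 : (1 - e x) * ∑ c ∈ Finset.range N, e x ^ c = 1 - e x ^ N := mul_neg_geom_sum _ _
  unfold av
  rw [fou_sum, ← e_pow, ← h1, norm_mul, norm_mul, norm_inv, Complex.norm_natCast, div_eq_inv_mul]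
  ring

private theorem fou_norm_sum {ι : Type} (t : Finset ι) (f : ι → ℂ) (hf : ∀ i ∈ t, ‖f i‖ ≤ 1) :
    ‖∑ i ∈ t, f i‖ ≤ t.card := by
  refine (norm_sum_le _ _).trans ((Finset.sum_le_sum hf).trans (le_of_eq ?_))
  simp

private theorem fou_mean {ι : Type} (t : Finset ι) (f : ι → ℂ) (hf : ∀ i ∈ t, ‖f i‖ ≤ 1) :
    ‖(t.card : ℂ)⁻¹ * ∑ i ∈ t, f i‖ ≤ 1 := by
  rw [norm_mul, norm_inv, Complex.norm_natCast]
  rcases Nat.eq_zero_or_pos t.card with h | h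
  · rw [h]; simp
  · have h0 : (0 : ℝ) < t.card := by exact_mod_cast h
    rw [inv_mul_le_iff₀ h0, mul_one]
    exact fou_norm_sum t f hf

theorem av_le_one (N : ℕ) (x : ℝ) : ‖av N x‖ ≤ 1 := by
  have h := fou_mean (Finset.range N) (fun c : ℕ => e (c * x)) (fun c _ => (norm_e _).le)
  rw [Finset.card_range] at h
  exact h

theorem fac_le (W : Finset ℕ) (L s' n : ℕ) :
    ‖(((W ×ˢ Finset.range (3 ^ L)).card : ℂ))⁻¹ * ∑ p ∈ W ×ˢ Finset.range (3 ^ L),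
      e (n * (((p.1 * 3 ^ L + p.2 : ℕ) : ℝ) / 3 ^ s'))‖ ≤ ‖av (3 ^ L) (n / 3 ^ s')‖ := by
  have h1 : ∑ p ∈ W ×ˢ Finset.range (3 ^ L), e (n * (((p.1 * 3 ^ L + p.2 : ℕ) : ℝ) / 3 ^ s'))
      = (∑ w ∈ W, e (n * (((w * 3 ^ L : ℕ) : ℝ) / 3 ^ s'))) *
        ∑ c ∈ Finset.range (3 ^ L), e (c * ((n : ℝ) / 3 ^ s')) := by
    rw [Finset.sum_product, Finset.sum_mul]
    refine Finset.sum_congr rfl fun w _ => ?_
    rw [Finset.mul_sum]
    refine Finset.sum_congr rfl fun c _ => ?_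
    rw [← e_add]
    congr 1
    push_cast
    ring
  have h2 : (((W ×ˢ Finset.range (3 ^ L)).card : ℂ))⁻¹ * ((∑ w ∈ W,
        e (n * (((w * 3 ^ L : ℕ) : ℝ) / 3 ^ s'))) *
        ∑ c ∈ Finset.range (3 ^ L), e (c * ((n : ℝ) / 3 ^ s')))
      = ((W.card : ℂ)⁻¹ * ∑ w ∈ W, e (n * (((w * 3 ^ L : ℕ) : ℝ) / 3 ^ s'))) *
        av (3 ^ L) (n / 3 ^ s') := by
    unfold av
    rw [Finset.card_product, Finset.card_range]
    push_cast
    rw [mul_inv]
    ring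
  rw [h1, h2, norm_mul]
  have h3 := fou_mean W (fun w : ℕ => e (n * (((w * 3 ^ L : ℕ) : ℝ) / 3 ^ s')))
    (fun w _ => (norm_e _).le)
  calc _ ≤ 1 * ‖av (3 ^ L) (n / 3 ^ s')‖ := mul_le_mul_of_nonneg_right h3 (norm_nonneg _)
    _ = _ := one_mul _

theorem fac_full (W : Finset ℕ) (M L s' n : ℕ) {δ : ℝ} (hW : W ⊆ Finset.range (3 ^ M))
    (hδ : δ ≤ 1 / 2) (hδ0 : 0 ≤ δ) (hc : (1 - δ) * 3 ^ M ≤ W.card) :
    ‖(((W ×ˢ Finset.range (3 ^ L)).card : ℂ))⁻¹ * ∑ p ∈ W ×ˢ Finset.range (3 ^ L),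
      e (n * (((p.1 * 3 ^ L + p.2 : ℕ) : ℝ) / 3 ^ s'))‖ ≤
      2 * (‖av (3 ^ (M + L)) (n / 3 ^ s')‖ + δ) := by
  classical
  obtain ⟨f, hf⟩ : ∃ f : ℕ → ℂ, f = fun b : ℕ => e ((b : ℝ) * ((n : ℝ) / 3 ^ s')) := ⟨_, rfl⟩
  have hf1 : ∀ b, ‖f b‖ = 1 := fun b => by rw [hf]; exact norm_e _
  obtain ⟨i, hi⟩ : ∃ i : ℕ × ℕ → ℕ, i = fun p => p.1 * 3 ^ L + p.2 := ⟨_, rfl⟩
  obtain ⟨T, hT⟩ : ∃ T : Finset (ℕ × ℕ), T = W ×ˢ Finset.range (3 ^ L) := ⟨_, rfl⟩
  have hinj : Set.InjOn i (T : Set (ℕ × ℕ)) := by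
    intro p hp q hq hpq
    rw [Finset.mem_coe, hT, Finset.mem_product, Finset.mem_range] at hp hq
    rw [hi] at hpq
    simp only at hpq
    have h3 : 0 < 3 ^ L := by positivity
    have e1 : p.1 = q.1 := by
      have : (p.1 * 3 ^ L + p.2) / 3 ^ L = (q.1 * 3 ^ L + q.2) / 3 ^ L := by rw [hpq]
      rw [mul_comm p.1, mul_comm q.1, Nat.mul_add_div h3, Nat.mul_add_div h3,
        Nat.div_eq_of_lt hp.2, Nat.div_eq_of_lt hq.2] at this
      simpa using this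
    have e2 : p.2 = q.2 := by
      rw [e1] at hpq
      exact Nat.add_left_cancel hpq
    exact Prod.ext e1 e2
  obtain ⟨G, hG⟩ : ∃ G : Finset ℕ, G = T.image i := ⟨_, rfl⟩
  have hGc : G.card = T.card := by rw [hG]; exact Finset.card_image_of_injOn hinj
  have hsum : ∑ p ∈ T, e (n * (((p.1 * 3 ^ L + p.2 : ℕ) : ℝ) / 3 ^ s')) = ∑ b ∈ G, f b := by
    rw [hG, Finset.sum_image hinj]
    refine Finset.sum_congr rfl fun p _ => ?_
    rw [hf, hi]
    simp only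
    congr 1
    ring
  have hGN : G ⊆ Finset.range (3 ^ (M + L)) := by
    intro b hb
    rw [hG, Finset.mem_image] at hb
    obtain ⟨p, hp, rfl⟩ := hb
    rw [hT, Finset.mem_product, Finset.mem_range] at hp
    have h1 := Finset.mem_range.mp (hW hp.1)
    rw [Finset.mem_range, hi, pow_add]
    simp only
    calc p.1 * 3 ^ L + p.2 < p.1 * 3 ^ L + 3 ^ L := by omega
      _ = (p.1 + 1) * 3 ^ L := by ring
      _ ≤ 3 ^ M * 3 ^ L := Nat.mul_le_mul_right _ h1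
  have hTc : T.card = W.card * 3 ^ L := by
    rw [hT, Finset.card_product, Finset.card_range]
  rw [← hT, hsum]
  obtain ⟨N, hN⟩ : ∃ N : ℝ, N = 3 ^ (M + L) := ⟨_, rfl⟩
  have hN0 : 0 < N := by rw [hN]; positivity
  have hg : (1 - δ) * N ≤ T.card := by
    rw [hTc, hN, pow_add]
    push_cast
    have := mul_le_mul_of_nonneg_right hc (show (0 : ℝ) ≤ 3 ^ L by positivity)
    linarith
  have hg0 : (0 : ℝ) < T.card := by
    have : 0 < (1 - δ) * N := mul_pos (by linarith) hN0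
    linarith
  have hav : ‖∑ b ∈ Finset.range (3 ^ (M + L)), f b‖ = N * ‖av (3 ^ (M + L)) (n / 3 ^ s')‖ := by
    unfold av
    rw [norm_mul, norm_inv, Complex.norm_natCast, ← mul_assoc]
    push_cast
    rw [← hN, mul_inv_cancel₀ hN0.ne', one_mul, hf]
  have hsplit : ∑ b ∈ G, f b = ∑ b ∈ Finset.range (3 ^ (M + L)), f b
      - ∑ b ∈ Finset.range (3 ^ (M + L)) \ G, f b := by
    rw [← Finset.sum_sdiff hGN]; ring
  have hrest : ‖∑ b ∈ Finset.range (3 ^ (M + L)) \ G, f b‖ ≤ N - T.card := by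
    refine (fou_norm_sum _ f (fun b _ => (hf1 b).le)).trans (le_of_eq ?_)
    rw [Finset.card_sdiff_of_subset hGN, Finset.card_range, hGc, Nat.cast_sub, hN]
    · push_cast; ring
    · rw [← hGc, ← Finset.card_range (3 ^ (M + L))]
      exact Finset.card_le_card hGN
  have hGb : ‖∑ b ∈ G, f b‖ ≤ N * (‖av (3 ^ (M + L)) (n / 3 ^ s')‖ + δ) := by
    rw [hsplit]
    refine (norm_sub_le _ _).trans ?_
    rw [hav]
    linarith
  rw [norm_mul, norm_inv, Complex.norm_natCast, inv_mul_le_iff₀ hg0]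
  refine hGb.trans ?_
  have hA : 0 ≤ ‖av (3 ^ (M + L)) (n / 3 ^ s')‖ + δ := by positivity
  have hNg : N ≤ 2 * T.card := by nlinarith
  have := mul_le_mul_of_nonneg_right hNg hA
  linarith

end Forcing.SD
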