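import Pool.Agent.Lib.MP_c80ac4_an.SD.Defs

/-!
# Row LI (helper3): a weak limit

PROOF IN WORDS. Let `K = closedBall (0 : ℂ) 1`, compact. Transport `μ j` to a probability measure on the
compact metric space `K` (`Measure.comap Subtype.val`, or `map` by the retraction; it is concentrated on
`K` because `‖z‖ = 1` almost everywhere). `ProbabilityMeasure K` is compact
(`MeasureTheory.instCompactSpaceProbabilityMeasure`, `Mathlib/MeasureTheory/Measure/Prokhorov.lean`), so
the sequence has a cluster point `ν` (take an ultrafilter below `atTop`, or `ClusterPt`, or a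
subsequence if the space is metrizable). Along the ultrafilter the integrals of bounded continuous
functions converge, in particular those of `z ^ n` (real and imaginary part, or
`BoundedContinuousFunction` into `ℂ`), so `‖∫ z ^ n ∂ν‖ ≤ B n`; and for the closed set `C = F k`
(and `C = sphere 0 1`): `ν C ≥ limsup μ j C = 1` by the portmanteau theorem
(`ProbabilityMeasure.limsup_measure_closed_le_of_tendsto`), or directly: the continuous function
`z ↦ min 1 (infDist z C)` has integral `0` with respect to `μ j` for large `j`, hence integral `0` with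
respect to `ν`, so `infDist z C = 0`, `z ∈ C`, almost everywhere (`C` is closed, and nonempty because
`μ j` lives on it). Countable intersection: `ae_all_iff`. Finally push `ν` forward to `ℂ`.
-/

namespace Forcing.SD

open MeasureTheory Filter Topology

theorem exists_limit (μ : ℕ → Measure ℂ) (hμ : ∀ k, IsProbabilityMeasure (μ k))
    (h1 : ∀ k, ∀ᵐ z ∂(μ k), ‖z‖ = 1) (F : ℕ → Set ℂ) (hF : ∀ k, IsClosed (F k))
    (hFμ : ∀ k, ∀ᶠ j in atTop, ∀ᵐ z ∂(μ j), z ∈ F k) (B : ℕ → ℝ)
    (hB : ∀ n, 1 ≤ n → ∀ᶠ j in atTop, ‖∫ z, z ^ n ∂(μ j)‖ ≤ B n) :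
    ∃ ν : Measure ℂ, IsProbabilityMeasure ν ∧ (∀ᵐ z ∂ν, ‖z‖ = 1 ∧ ∀ k, z ∈ F k) ∧
      ∀ n, 1 ≤ n → ‖∫ z, z ^ n ∂ν‖ ≤ B n := by
  classical
  have hKc : IsCompact (Metric.sphere (0 : ℂ) 1) := isCompact_sphere 0 1
  have : CompactSpace (Metric.sphere (0 : ℂ) 1) := isCompact_iff_compactSpace.mp hKc
  have emb : MeasurableEmbedding (Subtype.val : Metric.sphere (0 : ℂ) 1 → ℂ) :=
    MeasurableEmbedding.subtype_coe Metric.isClosed_sphere.measurableSet
  have hr : ∀ j, ∀ᵐ z ∂(μ j), z ∈ Set.range (Subtype.val : Metric.sphere (0 : ℂ) 1 → ℂ) := by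
    intro j
    filter_upwards [h1 j] with z hz
    exact ⟨⟨z, by simpa using hz⟩, rfl⟩
  let P : ℕ → ProbabilityMeasure (Metric.sphere (0 : ℂ) 1) := fun j =>
    ⟨(μ j).comap Subtype.val, by
      have := hμ j
      exact emb.isProbabilityMeasure_comap (hr j)⟩
  have hmap : ∀ j, (P j : Measure (Metric.sphere (0 : ℂ) 1)).map Subtype.val = μ j := by
    intro j
    change ((μ j).comap Subtype.val).map Subtype.val = μ j
    rw [emb.map_comap]
    exact Measure.restrict_eq_self_of_ae_mem (hr j)
  obtain ⟨ν, -, hν⟩ := (isCompact_univ (X := ProbabilityMeasure (Metric.sphere (0 : ℂ) 1))).ultrafilter_le_nhds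
    ((Filter.hyperfilter ℕ).map P) (by simp)
  have hU : ((Filter.hyperfilter ℕ : Ultrafilter ℕ) : Filter ℕ) ≤ atTop := Nat.hyperfilter_le_atTop
  have hlim : Tendsto P (Filter.hyperfilter ℕ : Filter ℕ) (𝓝 ν) := hν
  refine ⟨(ν : Measure (Metric.sphere (0 : ℂ) 1)).map Subtype.val, ?_, ?_, ?_⟩
  · exact Measure.isProbabilityMeasure_map measurable_subtype_coe.aemeasurable
  · rw [emb.ae_map_iff]
    have hk : ∀ k, ∀ᵐ z ∂(ν : Measure (Metric.sphere (0 : ℂ) 1)), z.1 ∈ F k := by
      intro k
      have hc : IsClosed ((Subtype.val : Metric.sphere (0 : ℂ) 1 → ℂ) ⁻¹' F k) :=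
        (hF k).preimage continuous_subtype_val
      have h2 : ∀ᶠ j in (Filter.hyperfilter ℕ : Filter ℕ),
          (P j : Measure (Metric.sphere (0 : ℂ) 1)) (Subtype.val ⁻¹' F k) = 1 := by
        filter_upwards [hU (hFμ k)] with j hj
        rw [← mem_ae_iff_prob_eq_one hc.measurableSet]
        have h3 := hj
        rw [← hmap j, emb.ae_map_iff] at h3
        exact h3
      have h4 := ProbabilityMeasure.limsup_measure_closed_le_of_tendsto hlim hc
      rw [limsup_congr h2, limsup_const] at h4
      exact (mem_ae_iff_prob_eq_one hc.measurableSet).mpr (le_antisymm prob_le_one h4)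
    filter_upwards [ae_all_iff.mpr hk] with z hz
    exact ⟨by simpa using z.2, hz⟩
  · intro n hn
    rw [emb.integral_map]
    have hcont : Continuous fun z : Metric.sphere (0 : ℂ) 1 => (z : ℂ) ^ n := by fun_prop
    have h5 := (ProbabilityMeasure.tendsto_iff_forall_integral_rclike_tendsto ℂ).mp hlim
      (BoundedContinuousFunction.mkOfCompact ⟨_, hcont⟩)
    refine le_of_tendsto h5.norm ?_
    filter_upwards [hU (hB n hn)] with j hj
    rw [← hmap j, emb.integral_map] at hj
    exact hj

end Forcing.SD
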