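import Pool.Agent.Lib.MP_c80ac4_an.SD.Defs

/-!
# Row NS (helper3): the set fails the Sidon inequalities

PROOF IN WORDS. `E` is closed: `P` is continuous. Not Sidon: take `q = 3` and let `N, C` be given. By
`h.lim` and `h.grow` (so `s (k+1) ≥ k + 1`, in particular `3 ^ s (k+1) ≥ N` for large `k`) there is `k`
with `N ≤ 3 ^ s (k+1)` and `C * η (k+1) < 1`; `m (k+1) ≥ 7` by `h.mη`, `h.η1`. The exponents
`3 ^ (s (k+1) + j)`, `j < m (k+1)`, form a `LacSet 3 N`, the coefficients are all `1 / m (k+1)`, with sum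
of the absolute values `1`, and on `E` the sum is `P (s (k+1)) (m (k+1)) z`, of norm at most `η (k+1)`.
The inequality `1 ≤ C * η (k+1)` is a contradiction (the case `C ≤ 0` too: `SidonIneq` with
`M = η (k+1) > 0`). Compare `UN/Sets.lean`, `not_sidonOn_E`.
-/

namespace Forcing.SD

open Filter Topology Metric

private theorem NS_continuous_P (s m : ℕ) : Continuous (P s m) := by
  unfold P
  exact continuous_const.mul (continuous_finsetSum _ fun j _ => continuous_id.pow _)

theorem isClosed_E (s m : ℕ → ℕ) (η : ℕ → ℝ) : IsClosed (E s m η) := by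
  have h : E s m η = sphere (0 : ℂ) 1 ∩ ⋂ k : ℕ, {z : ℂ | ‖P (s (k + 1)) (m (k + 1)) z‖ ≤ η (k + 1)} := by
    ext z
    simp [E]
  rw [h]
  exact isClosed_sphere.inter (isClosed_iInter fun k =>
    isClosed_le (NS_continuous_P _ _).norm continuous_const)

private theorem NS_ge {s m : ℕ → ℕ} {η : ℕ → ℝ} (h : Par s m η) (k : ℕ) : k ≤ s k := by
  induction k with
  | zero => exact Nat.zero_le _
  | succ k ih =>
    have := h.grow k
    omega

private theorem NS_inj (s : ℕ) : Function.Injective fun j : ℕ => 3 ^ (s + j) := by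
  intro a b hab
  have := Nat.pow_right_injective (le_refl 3 |>.trans' (by norm_num)) hab
  omega

theorem not_sidonOn_E {s m : ℕ → ℕ} {η : ℕ → ℝ} (h : Par s m η) : ¬ SidonOn (E s m η) := by
  intro hS
  obtain ⟨N, C, hNC⟩ := hS 3 (by norm_num)
  have hlim : Tendsto (fun k : ℕ => C * η (k + 1)) atTop (𝓝 0) := by
    have := ((tendsto_add_atTop_iff_nat 1).2 h.lim).const_mul C
    simpa using this
  have hev : ∀ᶠ k : ℕ in atTop, C * η (k + 1) < 1 := hlim.eventually (gt_mem_nhds one_pos)
  obtain ⟨k, hk, hkN⟩ := (hev.and (eventually_ge_atTop N)).exists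
  set a := s (k + 1) with ha
  set b := m (k + 1) with hb
  have hb0 : 0 < b := by
    rcases Nat.eq_zero_or_pos b with h0 | h0
    · have := h.mη k
      rw [← hb, h0] at this
      norm_num at this
    · exact h0
  have hNa : N ≤ 3 ^ a := by
    have h1 : k + 1 ≤ a := NS_ge h (k + 1)
    have h2 : a < 3 ^ a := Nat.lt_pow_self (by norm_num)
    omega
  have hinj := NS_inj a
  set t : Finset ℕ := (Finset.range b).image fun j => 3 ^ (a + j) with ht
  have hlac : LacSet 3 N (t : Set ℕ) := by
    constructor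
    · intro n hn
      rw [Finset.mem_coe, ht, Finset.mem_image] at hn
      obtain ⟨j, _, rfl⟩ := hn
      exact ⟨by positivity, hNa.trans (Nat.pow_le_pow_right (by norm_num) (by omega))⟩
    · intro n hn n' hn' hnn
      rw [Finset.mem_coe, ht, Finset.mem_image] at hn hn'
      obtain ⟨j, _, rfl⟩ := hn
      obtain ⟨j', _, rfl⟩ := hn'
      have hlt := (Nat.pow_lt_pow_iff_right (by norm_num)).1 hnn
      have h1 : (3 : ℕ) * 3 ^ (a + j) ≤ 3 ^ (a + j') := by
        rw [← pow_succ']
        exact Nat.pow_le_pow_right (by norm_num) (by omega)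
      exact_mod_cast h1
  have hcard : t.card = b := by
    rw [ht, Finset.card_image_of_injective _ hinj, Finset.card_range]
  have h1 := hNC t (fun _ => (b : ℂ)⁻¹) (η (k + 1)) hlac (h.η0 k).le (fun z hz => by
    have hz3 := hz.2 k
    unfold P at hz3
    rw [Finset.mul_sum] at hz3
    rw [ht, Finset.sum_image (fun x _ y _ hxy => hinj hxy)]
    exact hz3)
  have h2 : ∑ n ∈ t, ‖((b : ℂ)⁻¹)‖ = 1 := by
    rw [Finset.sum_const, hcard, nsmul_eq_mul, norm_inv, Complex.norm_natCast]
    have : (b : ℝ) ≠ 0 := by positivity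
    field_simp
  rw [h2] at h1
  linarith

end Forcing.SD
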