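import Pool.Agent.Lib.MP_c80ac4_an.SD.Defs

/-!
# Row PR (helper3): the choice of the parameters

PROOF IN WORDS. Take `η 0 = 1`, `η (k+1) = 1 / (k+1)`, `s 0 = m 0 = 0`. Given `s k, m k`, choose `s (k+1)`
with `8 (s k + m k) + 1 ≤ s (k+1)` and so large that `w n ≤ η (k+1) ^ 2 / 400` whenever
`3 ^ s (k+1) ≤ n ^ 2` (possible because `w → 0`: there is `N` with `w n ≤ ..` for `n ≥ N`, and
`n ^ 2 ≥ 3 ^ S > N ^ 2` implies `n > N`), then `m (k+1) ≥ s (k+1)` so large that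
`7 ≤ η (k+1) m (k+1)` and `16 exp (-(η (k+1) ^ 2 / 64 * m (k+1))) ≤ 1`. Recursion on pairs `(s, m)`
(`Nat.rec` with `Classical.choose`, or `exists_seq` type lemmas; the step depends on `k`, so use
`Nat.rec` on the pair).
-/

namespace Forcing.SD

open Filter Topology

private noncomputable def prEta (k : ℕ) : ℝ := if k = 0 then 1 else 1 / (k : ℝ)

private theorem pr_step (w : ℕ → ℝ) (hw : Tendsto w atTop (𝓝 0)) (k : ℕ) (q : ℕ × ℕ) :
    ∃ r : ℕ × ℕ, (8 * (q.1 + q.2) + 1 ≤ r.1 ∧ r.1 ≤ r.2) ∧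
      (7 ≤ prEta (k + 1) * r.2 ∧ 16 * Real.exp (-(prEta (k + 1) ^ 2 / 64 * r.2)) ≤ 1) ∧
      ∀ n : ℕ, 3 ^ r.1 ≤ n ^ 2 → w n ≤ prEta (k + 1) ^ 2 / 400 := by
  have he : 0 < prEta (k + 1) := by
    unfold prEta
    rw [if_neg (by omega)]
    positivity
  have h1 : ∀ᶠ n in atTop, w n < prEta (k + 1) ^ 2 / 400 :=
    (tendsto_order.1 hw).2 _ (by positivity)
  obtain ⟨N, hN⟩ := eventually_atTop.1 h1
  set S := 8 * (q.1 + q.2) + 1 + N ^ 2 with hS
  have h2 : Tendsto (fun m : ℕ => prEta (k + 1) * (m : ℝ)) atTop atTop :=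
    tendsto_natCast_atTop_atTop.const_mul_atTop he
  have h3 : Tendsto (fun m : ℕ => 16 * Real.exp (-(prEta (k + 1) ^ 2 / 64 * (m : ℝ)))) atTop (𝓝 (16 * 0)) := by
    refine Tendsto.const_mul 16 ?_
    refine Real.tendsto_exp_atBot.comp ?_
    refine tendsto_neg_atTop_atBot.comp ?_
    exact tendsto_natCast_atTop_atTop.const_mul_atTop (by positivity)
  rw [mul_zero] at h3
  have h4 := h2.eventually_ge_atTop 7
  have h5 : ∀ᶠ m : ℕ in atTop, 16 * Real.exp (-(prEta (k + 1) ^ 2 / 64 * (m : ℝ))) < 1 :=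
    (tendsto_order.1 h3).2 _ one_pos
  obtain ⟨m, hm1, hm2, hm3⟩ := (h4.and (h5.and (eventually_ge_atTop S))).exists
  refine ⟨(S, m), ⟨by rw [hS]; omega, hm3⟩, ⟨hm1, hm2.le⟩, fun n hn => (hN n ?_).le⟩
  by_contra hlt
  push Not at hlt
  have h6 : n ^ 2 ≤ N ^ 2 := Nat.pow_le_pow_left hlt.le 2
  have h7 : N ^ 2 < 3 ^ (N ^ 2) := Nat.lt_pow_self (by norm_num)
  have h8 : 3 ^ (N ^ 2) ≤ 3 ^ S := Nat.pow_le_pow_right (by norm_num) (by rw [hS]; omega)
  have h9 : 3 ^ S ≤ n ^ 2 := hn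
  omega

theorem exists_par (w : ℕ → ℝ) (hw : Tendsto w atTop (𝓝 0)) :
    ∃ (s m : ℕ → ℕ) (η : ℕ → ℝ), Par s m η ∧
      ∀ k n : ℕ, 3 ^ s (k + 1) ≤ n ^ 2 → w n ≤ η (k + 1) ^ 2 / 400 := by
  choose f hf1 hf2 hf3 using pr_step w hw
  set g : ℕ → ℕ × ℕ := fun k => Nat.rec (0, 0) (fun k q => f k q) k with hg
  have hg0 : g 0 = (0, 0) := rfl
  have hgs : ∀ k, g (k + 1) = f k (g k) := fun k => rfl
  refine ⟨fun k => (g k).1, fun k => (g k).2, prEta, ?_, ?_⟩
  · have he0 : ∀ k, prEta (k + 1) = 1 / ((k + 1 : ℕ) : ℝ) := by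
      intro k
      unfold prEta
      rw [if_neg (by omega)]
    refine ⟨by simp only [hg0], by simp only [hg0], ?_, ?_, ?_, ?_, ?_, ?_, ?_⟩
    · intro k
      simp only [hgs]
      exact (hf1 k (g k)).1
    · intro k
      simp only [hgs]
      exact (hf1 k (g k)).2
    · intro k
      rw [he0]
      positivity
    · intro k
      rw [he0, div_le_one (by positivity)]
      exact_mod_cast Nat.succ_le_succ (Nat.zero_le k)
    · intro k
      simp only [hgs]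
      exact (hf2 k (g k)).1
    · intro k
      simp only [hgs]
      exact (hf2 k (g k)).2
    · have h1 : Tendsto (fun k : ℕ => 1 / (k : ℝ)) atTop (𝓝 0) := tendsto_one_div_atTop_nhds_zero_nat
      refine h1.congr' ?_
      filter_upwards [eventually_ge_atTop 1] with k hk
      unfold prEta
      rw [if_neg (by omega)]
  · intro k n hn
    simp only [hgs] at hn
    exact hf3 k (g k) n hn

end Forcing.SD
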