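import Pool.Agent.Lib.MP_c80ac4_an.SD.Defs

/-!
# Row SU (helper3): the points of the measures are in the set

PROOF IN WORDS. `Q K a`: for every `k < K` the word of the natural number `a` (in base `3`, of length
`s K`) at the positions of block `k` is good:
`a = (q * 3 ^ m k + w) * 3 ^ (s K - (s k + m k)) + t`, `w` good, `t < 3 ^ (s K - (s k + m k))`.
`Q_step`: `a' = a * 3 ^ (s (K+1) - s K) + (w' * 3 ^ L + c)`, `L = s (K+1) - (s K + m K)`,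
`w' < 3 ^ m K` (a good word), `c < 3 ^ L`. For `k < K` keep `q, w` and take
`t' = t * 3 ^ (s (K+1) - s K) + w' * 3 ^ L + c`, which is `< 3 ^ (s (K+1) - (s k + m k))` because
`w' * 3 ^ L + c < 3 ^ (m K + L) = 3 ^ (s (K+1) - s K)`; `s k + m k ≤ s (k+1) ≤ s K` by `h.grow`. For
`k = K` take `q = a`, `w = w'`, `t = c`.
`Q_P`: put `k' = k + 1`, `r = s k' + m k'`, `D = 3 ^ (s K - r)`, `a = (q 3 ^ m k' + w) D + t`. For `j < m k'`,
`e (a / 3 ^ s K) ^ (3 ^ (s k' + j)) = e (3 ^ (s k' + j) a / 3 ^ s K)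
 = e (q 3 ^ j + 3 ^ j w / 3 ^ m k' + 3 ^ (j - m k') t / D)`,
the first summand is an integer, the last one is in `[0, 3 ^ (j - m k'))`, so the distance to
`e (3 ^ j (w / 3 ^ m k'))` is at most `2 π 3 ^ j / 3 ^ m k'` (`e_sub_le`), and the sum of these over
`j < m k'` is at most `π` (`∑ j < m, 3 ^ j ≤ 3 ^ m / 2`). Hence
`‖P‖ ≤ (η / 2 * m + π) / m ≤ η` because `7 ≤ η m` (`h.mη`) and `π ≤ 3.5`.
-/

namespace Forcing.SD

open Forcing.Ratio

/-- the words of `a` in the blocks before `K` are good -/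
def Q (s m : ℕ → ℕ) (η : ℕ → ℝ) (K a : ℕ) : Prop :=
  ∀ k < K, ∃ q w t : ℕ, w ∈ good (m k) (η k) ∧ t < 3 ^ (s K - (s k + m k)) ∧
    a = (q * 3 ^ m k + w) * 3 ^ (s K - (s k + m k)) + t

private theorem su_mono {s m : ℕ → ℕ} {η : ℕ → ℝ} (h : Par s m η) {a b : ℕ} (hab : a ≤ b) : s a ≤ s b :=
  monotone_nat_of_le_succ (fun k => by have := h.grow k; omega) hab

private theorem su_le {s m : ℕ → ℕ} {η : ℕ → ℝ} (h : Par s m η) {k K : ℕ} (hk : k < K) : s k + m k ≤ s K := by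
  have h1 := h.grow k
  have h2 := su_mono h (Nat.succ_le_of_lt hk)
  have h3 : s (k + 1) ≤ s K := h2
  omega

private theorem su_lt {m : ℕ} {η : ℝ} {w : ℕ} (hw : w ∈ good m η) : w < 3 ^ m := by
  classical
  unfold good at hw
  exact Finset.mem_range.1 (Finset.mem_filter.1 hw).1

private theorem su_good {m : ℕ} {η : ℝ} {w : ℕ} (hw : w ∈ good m η) :
    ‖∑ j ∈ Finset.range m, e ((3 : ℝ) ^ j * ((w : ℝ) / 3 ^ m))‖ ≤ η / 2 * m := by
  classical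
  unfold good at hw
  exact (Finset.mem_filter.1 hw).2

theorem Q_step {s m : ℕ → ℕ} {η : ℕ → ℝ} (h : Par s m η) {K a : ℕ} (hQ : Q s m η K a)
    {p : ℕ × ℕ} (hp : p ∈ idx s m η K) :
    Q s m η (K + 1) (a * 3 ^ (s (K + 1) - s K) +
      (p.1 * 3 ^ (s (K + 1) - (s K + m K)) + p.2)) := by
  have hp1 : p.1 ∈ good (m K) (η K) := (Finset.mem_product.1 hp).1
  have hp2 : p.2 < 3 ^ (s (K + 1) - (s K + m K)) := Finset.mem_range.1 (Finset.mem_product.1 hp).2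
  have hp3 : p.1 < 3 ^ m K := su_lt hp1
  have hg : s K + m K ≤ s (K + 1) := su_le h (Nat.lt_succ_self K)
  have hX : s (K + 1) - s K = m K + (s (K + 1) - (s K + m K)) := by omega
  have hc : p.1 * 3 ^ (s (K + 1) - (s K + m K)) + p.2 < 3 ^ (s (K + 1) - s K) := by
    rw [hX, pow_add]
    calc p.1 * 3 ^ (s (K + 1) - (s K + m K)) + p.2
        < p.1 * 3 ^ (s (K + 1) - (s K + m K)) + 3 ^ (s (K + 1) - (s K + m K)) := by omega
      _ = (p.1 + 1) * 3 ^ (s (K + 1) - (s K + m K)) := by ring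
      _ ≤ 3 ^ m K * 3 ^ (s (K + 1) - (s K + m K)) := Nat.mul_le_mul_right _ hp3
  intro k hk
  rcases Nat.lt_succ_iff_lt_or_eq.1 hk with hk1 | hk1
  · obtain ⟨q, w, t, hw, ht, ha⟩ := hQ k hk1
    have hr : s k + m k ≤ s K := su_le h hk1
    have hD : s (K + 1) - (s k + m k) = (s K - (s k + m k)) + (s (K + 1) - s K) := by omega
    refine ⟨q, w, t * 3 ^ (s (K + 1) - s K) + (p.1 * 3 ^ (s (K + 1) - (s K + m K)) + p.2), hw, ?_, ?_⟩
    · rw [hD, pow_add]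
      calc t * 3 ^ (s (K + 1) - s K) + (p.1 * 3 ^ (s (K + 1) - (s K + m K)) + p.2)
          < t * 3 ^ (s (K + 1) - s K) + 3 ^ (s (K + 1) - s K) := by omega
        _ = (t + 1) * 3 ^ (s (K + 1) - s K) := by ring
        _ ≤ 3 ^ (s K - (s k + m k)) * 3 ^ (s (K + 1) - s K) := Nat.mul_le_mul_right _ ht
    · rw [hD, pow_add, ha]
      ring
  · subst hk1
    refine ⟨a, p.1, p.2, hp1, hp2, ?_⟩
    rw [hX, pow_add]
    ring

theorem Q_P {s m : ℕ → ℕ} {η : ℕ → ℝ} (h : Par s m η) {K a k : ℕ} (hk : k + 1 < K)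
    (hQ : Q s m η K a) : ‖P (s (k + 1)) (m (k + 1)) (e (a / 3 ^ s K))‖ ≤ η (k + 1) := by
  obtain ⟨q, w, t, hw, ht, ha⟩ := hQ (k + 1) hk
  have hr : s (k + 1) + m (k + 1) ≤ s K := su_le h hk
  obtain ⟨M, hM⟩ : ∃ M, M = m (k + 1) := ⟨_, rfl⟩
  obtain ⟨σ, hσ⟩ : ∃ σ, σ = s (k + 1) := ⟨_, rfl⟩
  obtain ⟨η', hη'⟩ : ∃ η', η' = η (k + 1) := ⟨_, rfl⟩
  obtain ⟨d, hd⟩ : ∃ d, d = s K - (s (k + 1) + m (k + 1)) := ⟨_, rfl⟩
  have hsK : s K = σ + M + d := by omega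
  have hmη := h.mη k
  have hη0 := h.η0 k
  have hgood := su_good hw
  rw [← hM, ← hη'] at hmη hgood
  rw [← hd] at ht ha
  rw [← hM] at ha
  rw [← hη'] at hη0
  rw [← hM, ← hσ, ← hη']
  have hM0 : (0 : ℝ) < M := by
    by_contra hcon
    push Not at hcon
    have : η' * M ≤ 0 := mul_nonpos_of_nonneg_of_nonpos hη0.le hcon
    linarith
  have h3 : (0 : ℝ) < 3 ^ M := by positivity
  have h3d : (0 : ℝ) < 3 ^ d := by positivity
  have htd : (t : ℝ) ≤ 3 ^ d := by exact_mod_cast ht.le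
  have ha' : (a : ℝ) = ((q : ℝ) * 3 ^ M + w) * 3 ^ d + t := by
    rw [ha]; push_cast; ring
  have hterm : ∀ j ∈ Finset.range M, ‖e (a / 3 ^ s K) ^ (3 ^ (σ + j)) - e ((3 : ℝ) ^ j * ((w : ℝ) / 3 ^ M))‖ ≤
      2 * Real.pi * (3 ^ j / 3 ^ M) := by
    intro j _
    rw [e_pow]
    have e1 : ((3 ^ (σ + j) : ℕ) : ℝ) * ((a : ℝ) / 3 ^ s K) =
        (((3 : ℝ) ^ j * ((w : ℝ) / 3 ^ M)) + (3 : ℝ) ^ j * t / (3 ^ M * 3 ^ d)) + ((3 ^ j * q : ℕ) : ℝ) := by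
      rw [ha', hsK]
      push_cast
      rw [pow_add (3 : ℝ) (σ + M) d, pow_add (3 : ℝ) σ M, pow_add (3 : ℝ) σ j]
      field_simp
      ring
    rw [e1, e_add, e_nat, mul_one]
    refine (e_sub_le _ _).trans ?_
    have e2 : |((3 : ℝ) ^ j * ((w : ℝ) / 3 ^ M)) + (3 : ℝ) ^ j * t / (3 ^ M * 3 ^ d) - (3 : ℝ) ^ j * ((w : ℝ) / 3 ^ M)| =
        (3 : ℝ) ^ j * t / (3 ^ M * 3 ^ d) := by
      rw [add_sub_cancel_left, abs_of_nonneg (by positivity)]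
    rw [e2]
    refine mul_le_mul_of_nonneg_left ?_ (by positivity)
    rw [div_le_div_iff₀ (by positivity) h3]
    have : (3 : ℝ) ^ j * t ≤ 3 ^ j * 3 ^ d := mul_le_mul_of_nonneg_left htd (by positivity)
    calc (3 : ℝ) ^ j * t * 3 ^ M ≤ 3 ^ j * 3 ^ d * 3 ^ M := mul_le_mul_of_nonneg_right this h3.le
      _ = 3 ^ j * (3 ^ M * 3 ^ d) := by ring
  have hgeo : ∑ j ∈ Finset.range M, (3 : ℝ) ^ j ≤ 3 ^ M / 2 := by
    rw [geom_sum_eq (by norm_num) M]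
    linarith
  have hsum : ‖∑ j ∈ Finset.range M, e (a / 3 ^ s K) ^ (3 ^ (σ + j))‖ ≤ η' / 2 * M + Real.pi := by
    have e3 : ∑ j ∈ Finset.range M, e (a / 3 ^ s K) ^ (3 ^ (σ + j)) =
        ∑ j ∈ Finset.range M, e ((3 : ℝ) ^ j * ((w : ℝ) / 3 ^ M)) +
          ∑ j ∈ Finset.range M, (e (a / 3 ^ s K) ^ (3 ^ (σ + j)) - e ((3 : ℝ) ^ j * ((w : ℝ) / 3 ^ M))) := by
      rw [Finset.sum_sub_distrib]; ring
    rw [e3]
    refine (norm_add_le _ _).trans (add_le_add hgood ?_)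
    refine (norm_sum_le _ _).trans ((Finset.sum_le_sum hterm).trans ?_)
    rw [← Finset.mul_sum, ← Finset.sum_div]
    have e4 : (∑ j ∈ Finset.range M, (3 : ℝ) ^ j) / 3 ^ M ≤ 1 / 2 := by
      rw [div_le_iff₀ h3]
      linarith
    calc 2 * Real.pi * ((∑ j ∈ Finset.range M, (3 : ℝ) ^ j) / 3 ^ M) ≤ 2 * Real.pi * (1 / 2) :=
          mul_le_mul_of_nonneg_left e4 (by positivity)
      _ = Real.pi := by ring
  unfold P
  rw [norm_mul, norm_inv, Complex.norm_natCast, inv_mul_le_iff₀ hM0]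
  refine hsum.trans ?_
  have hpi := Real.pi_lt_d2
  nlinarith

end Forcing.SD
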