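import Pool.Agent.Lib.MP_c80ac4_an.SD.Cv
import Pool.Agent.Lib.MP_c80ac4_an.SD.Bd
import Pool.Agent.Lib.MP_c80ac4_an.SD.Sup
import Pool.Agent.Lib.MP_c80ac4_an.SD.Lim
import Pool.Agent.Lib.MP_c80ac4_an.SD.Prm
import Pool.Agent.Lib.MP_c80ac4_an.SD.NS

/-! # Power decay is the sharp decay condition -/

namespace Forcing.SD

open Forcing.Ratio MeasureTheory Filter Topology Metric

variable {s m : ℕ → ℕ} {η : ℕ → ℝ}

theorem delta_le (h : Par s m η) (k : ℕ) :
    0 ≤ 4 * Real.exp (-(η (k + 1) ^ 2 / 64 * m (k + 1))) ∧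
      4 * Real.exp (-(η (k + 1) ^ 2 / 64 * m (k + 1))) ≤ 1 / 4 := by
  have h1 := h.big k
  have h2 := Real.exp_pos (-(η (k + 1) ^ 2 / 64 * m (k + 1)))
  constructor <;> linarith

theorem good_ne (h : Par s m η) (k : ℕ) : (good (m k) (η k)).Nonempty := by
  rcases k with _ | k
  · rw [h.m0, good_zero]
    exact Finset.singleton_nonempty _
  · have h1 := good_card (m (k + 1)) (h.η0 k) (h.η1 k)
    have h2 := delta_le h k
    rw [← Finset.card_pos]
    have h3 : (0 : ℝ) < (good (m (k + 1)) (η (k + 1))).card := by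
      refine lt_of_lt_of_le ?_ h1
      have : (0 : ℝ) < 3 ^ m (k + 1) := by positivity
      nlinarith
    exact_mod_cast h3

theorem idx_ne (h : Par s m η) (k : ℕ) : (idx s m η k).Nonempty :=
  (good_ne h k).product ⟨0, Finset.mem_range.2 (by positivity)⟩

theorem mu_prob (h : Par s m η) (k : ℕ) : IsProbabilityMeasure (mu s m η k) := by
  induction k with
  | zero =>
    unfold mu
    infer_instance
  | succ k ih =>
    unfold mu
    have := ih
    exact cv_prob (idx_ne h k) _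

/-- the points -/
def T (s m : ℕ → ℕ) (η : ℕ → ℝ) (K : ℕ) (z : ℂ) : Prop :=
  ∃ a : ℕ, Q s m η K a ∧ z = e ((a : ℝ) / 3 ^ s K)

theorem T_meas (K : ℕ) : MeasurableSet {z | T s m η K z} := by
  have h1 : {z | T s m η K z} ⊆ Set.range fun a : ℕ => e ((a : ℝ) / 3 ^ s K) := by
    rintro z ⟨a, -, rfl⟩
    exact ⟨a, rfl⟩
  exact ((Set.countable_range _).mono h1).measurableSet

theorem mono_s (h : Par s m η) (k : ℕ) : s k + m k ≤ s (k + 1) := by
  have := h.grow k
  omega

theorem mu_ae (h : Par s m η) (K : ℕ) : ∀ᵐ z ∂(mu s m η K), T s m η K z := by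
  induction K with
  | zero =>
    unfold mu
    rw [ae_dirac_iff (T_meas 0)]
    refine ⟨0, fun k hk => absurd hk (Nat.not_lt_zero _), ?_⟩
    rw [Nat.cast_zero, zero_div]
    unfold e
    simp
  | succ K ih =>
    unfold mu
    refine cv_ae ih (T_meas (K + 1)) ?_
    rintro z ⟨a, ha, rfl⟩ p hp
    refine ⟨_, Q_step h ha hp, ?_⟩
    rw [← e_add]
    congr 1
    unfold pt
    have h1 := mono_s h K
    have h2 : (3 : ℝ) ^ s (K + 1) = 3 ^ s K * 3 ^ (s (K + 1) - s K) := by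
      rw [← pow_add]
      congr 1
      omega
    push_cast
    rw [h2]
    field_simp

theorem mu_norm (h : Par s m η) (K : ℕ) : ∀ᵐ z ∂(mu s m η K), ‖z‖ = 1 := by
  filter_upwards [mu_ae h K] with z hz
  obtain ⟨a, -, rfl⟩ := hz
  exact norm_e _

theorem mu_int (h : Par s m η) (k n : ℕ) :
    ∫ z, z ^ n ∂(mu s m η (k + 1)) = fac s m η k n * ∫ z, z ^ n ∂(mu s m η k) := by
  have := mu_prob h k
  have h1 : mu s m η (k + 1) = cv (mu s m η k) (idx s m η k) (pt s m k) := rfl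
  rw [h1, cv_int (mu_norm h k) (idx_ne h k)]
  rfl

theorem mu_int_le_one (h : Par s m η) (k n : ℕ) : ‖∫ z, z ^ n ∂(mu s m η k)‖ ≤ 1 := by
  have := mu_prob h k
  refine (norm_integral_le_of_norm_le_const (C := 1) ?_).trans (by simp)
  filter_upwards [mu_norm h k] with z hz
  rw [norm_pow, hz, one_pow]

theorem mu_int_mono (h : Par s m η) (n : ℕ) {k j : ℕ} (hkj : k ≤ j) :
    ‖∫ z, z ^ n ∂(mu s m η j)‖ ≤ ‖∫ z, z ^ n ∂(mu s m η k)‖ := by
  induction j, hkj using Nat.le_induction with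
  | base => exact le_rfl
  | succ j _ ih =>
    rw [mu_int h, norm_mul]
    exact (mul_le_of_le_one_left (norm_nonneg _) (bd0 s m η j n)).trans ih

theorem s_ge (h : Par s m η) (k : ℕ) : k ≤ s k := by
  induction k with
  | zero => exact Nat.zero_le _
  | succ k ih =>
    have := h.grow k
    omega

/-- **The bound in one range.** -/
theorem range_bound (h : Par s m η) {w : ℕ → ℝ}
    (hw : ∀ k n : ℕ, 3 ^ s (k + 1) ≤ n ^ 2 → w n ≤ η (k + 1) ^ 2 / 400) {k n j : ℕ}
    (hn1 : 3 ^ s (k + 1) ≤ n ^ 2) (hn2 : n ^ 2 < 3 ^ s (k + 2)) (hj : k + 2 ≤ j) :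
    ‖∫ z, z ^ n ∂(mu s m η j)‖ ≤ 9 * (n : ℝ) ^ (-w n) := by
  have hn : 1 ≤ n := by
    rcases Nat.eq_zero_or_pos n with h0 | h0
    · subst h0
      have : 0 < 3 ^ s (k + 1) := by positivity
      simp at hn1
    · exact h0
  have hnR : (1 : ℝ) ≤ n := by exact_mod_cast hn
  have hn0 : (0 : ℝ) < n := by linarith
  refine (mu_int_mono h n hj).trans ?_
  rw [mu_int h (k + 1), mu_int h k]
  have hwn := hw k n hn1
  have hη0 := h.η0 k
  have hη1 := h.η1 k
  have hη2 : η (k + 1) ^ 2 ≤ 1 := by nlinarith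
  have hw4 : w n ≤ 1 / 4 := by linarith
  -- 2 n ≤ 3 ^ s (k + 2)
  have h2n : 2 * n ≤ 3 ^ s (k + 2) := by
    rcases Nat.lt_or_ge n 2 with h3 | h3
    · have h4 : n = 1 := by omega
      subst h4
      have h5 : 1 ≤ s (k + 2) := by
        have h6 : 8 * (s (k + 1) + m (k + 1)) + 1 ≤ s (k + 2) := h.grow (k + 1)
        omega
      calc 2 * 1 ≤ 3 ^ 1 := by norm_num
        _ ≤ 3 ^ s (k + 2) := Nat.pow_le_pow_right (by norm_num) h5
    · nlinarith
  have hpw : (n : ℝ) ^ (-(1 : ℝ) / 4) ≤ (n : ℝ) ^ (-w n) :=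
    Real.rpow_le_rpow_of_exponent_le hnR (by linarith)
  set X : ℝ := ‖∫ z, z ^ n ∂(mu s m η k)‖ with hX
  have hX1 : X ≤ 1 := mu_int_le_one h k n
  have hX0 : 0 ≤ X := norm_nonneg _
  rw [norm_mul, norm_mul]
  have hf0 : ‖fac s m η (k + 1) n‖ * (‖fac s m η k n‖ * X) ≤
      ‖fac s m η k n‖ * ‖fac s m η (k + 1) n‖ := by
    have h3 : ‖fac s m η k n‖ * X ≤ ‖fac s m η k n‖ := mul_le_of_le_one_right (norm_nonneg _) hX1
    calc ‖fac s m η (k + 1) n‖ * (‖fac s m η k n‖ * X) ≤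
        ‖fac s m η (k + 1) n‖ * ‖fac s m η k n‖ := mul_le_mul_of_nonneg_left h3 (norm_nonneg _)
      _ = _ := mul_comm _ _
  refine hf0.trans ?_
  rcases le_or_gt (3 ^ (2 * (s (k + 1) + m (k + 1)))) n with hbig | hsmall
  · -- large n
    have h3 : ‖fac s m η k n‖ * ‖fac s m η (k + 1) n‖ ≤ ‖fac s m η (k + 1) n‖ :=
      mul_le_of_le_one_left (norm_nonneg _) (bd0 s m η k n)
    refine h3.trans ((bd1 h (k + 1) hn h2n).trans ?_)
    have h4 : ((3 : ℝ) ^ (s (k + 1) + m (k + 1))) ^ 2 ≤ n := by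
      rw [← pow_mul, mul_comm (s (k + 1) + m (k + 1)) 2]
      exact_mod_cast hbig
    have h5 : (3 : ℝ) ^ (s (k + 1) + m (k + 1)) ≤ (n : ℝ) ^ ((1 : ℝ) / 2) := by
      rw [← Real.sqrt_eq_rpow]
      exact Real.le_sqrt_of_sq_le h4
    have h6 : (n : ℝ) ^ ((1 : ℝ) / 2) / (2 * n) ≤ 9 * (n : ℝ) ^ (-w n) := by
      have h7 : (n : ℝ) ^ ((1 : ℝ) / 2) / n = (n : ℝ) ^ (-(1 : ℝ) / 2) := by
        have h8 : (n : ℝ) ^ ((1 : ℝ) / 2) / (n : ℝ) ^ (1 : ℝ) = (n : ℝ) ^ ((1 : ℝ) / 2 - 1) :=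
          (Real.rpow_sub hn0 _ _).symm
        rw [Real.rpow_one] at h8
        rw [h8]
        norm_num
      have h9 : (n : ℝ) ^ (-(1 : ℝ) / 2) ≤ (n : ℝ) ^ (-w n) :=
        Real.rpow_le_rpow_of_exponent_le hnR (by linarith)
      have h10 : (n : ℝ) ^ ((1 : ℝ) / 2) / (2 * n) = 1 / 2 * ((n : ℝ) ^ ((1 : ℝ) / 2) / n) := by
        field_simp
      rw [h10, h7]
      have h11 : 0 ≤ (n : ℝ) ^ (-w n) := by positivity
      linarith
    refine le_trans ?_ h6
    gcongr
  · -- small n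
    refine (bd2 h k hn h2n).trans ?_
    have h3 : (3 : ℝ) ^ (s k + m k) / n ≤ (n : ℝ) ^ (-w n) := by
      have h4 : ((3 : ℝ) ^ (s k + m k)) ^ 8 ≤ (n : ℝ) ^ 2 := by
        have h5 : 3 ^ (8 * (s k + m k)) ≤ n ^ 2 := by
          refine le_trans (Nat.pow_le_pow_right (by norm_num) ?_) hn1
          have := h.grow k
          omega
        rw [← pow_mul, mul_comm (s k + m k) 8]
        exact_mod_cast h5
      have h6 : (3 : ℝ) ^ (s k + m k) ≤ (n : ℝ) ^ ((1 : ℝ) / 4) := by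
        have h7 : ((3 : ℝ) ^ (s k + m k)) ^ 8 ≤ ((n : ℝ) ^ ((1 : ℝ) / 4)) ^ 8 := by
          refine h4.trans (le_of_eq ?_)
          rw [← Real.rpow_natCast ((n : ℝ) ^ ((1 : ℝ) / 4)) 8, ← Real.rpow_mul hn0.le]
          norm_num
        exact le_of_pow_le_pow_left₀ (by norm_num) (by positivity) h7
      have h8 : (3 : ℝ) ^ (s k + m k) / n ≤ (n : ℝ) ^ ((1 : ℝ) / 4) / n := by gcongr
      refine h8.trans ?_
      have h9 : (n : ℝ) ^ ((1 : ℝ) / 4) / (n : ℝ) ^ (1 : ℝ) = (n : ℝ) ^ ((1 : ℝ) / 4 - 1) :=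
        (Real.rpow_sub hn0 _ _).symm
      rw [Real.rpow_one] at h9
      rw [h9]
      exact Real.rpow_le_rpow_of_exponent_le hnR (by linarith)
    have h4 : 8 * Real.exp (-(η (k + 1) ^ 2 / 64 * m (k + 1))) ≤ 8 * (n : ℝ) ^ (-w n) := by
      refine mul_le_mul_of_nonneg_left ?_ (by norm_num)
      rw [Real.rpow_def_of_pos hn0]
      refine Real.exp_le_exp.2 ?_
      have hlog : Real.log n ≤ 4.4 * m (k + 1) := by
        have h5 : (n : ℝ) ≤ 3 ^ (4 * m (k + 1)) := by
          have h6 : n ≤ 3 ^ (4 * m (k + 1)) := by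
            refine hsmall.le.trans (Nat.pow_le_pow_right (by norm_num) ?_)
            have := h.ms k
            omega
          exact_mod_cast h6
        have h7 := Real.log_le_log hn0 h5
        rw [Real.log_pow] at h7
        have h8 : Real.log 3 ≤ 1.1 := by
          rw [Real.log_le_iff_le_exp (by norm_num)]
          have h9 : (3 : ℝ) ≤ (Real.exp 1) * Real.exp (1 / 10) := by
            have h10 := Real.exp_one_gt_d9
            have h11 := Real.add_one_le_exp (1 / 10 : ℝ)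
            have h12 : (0 : ℝ) < Real.exp 1 := Real.exp_pos _
            have h13 : Real.exp (1 / 10) ≥ 1 + 1 / 10 + (1 / 10) ^ 2 / 2 := by
              have := Real.quadratic_le_exp_of_nonneg (x := 1 / 10) (by norm_num)
              linarith
            nlinarith
          rw [← Real.exp_add] at h9
          norm_num at h9 ⊢
          exact h9
        push_cast at h7
        have h14 : (0 : ℝ) ≤ m (k + 1) := Nat.cast_nonneg _
        nlinarith
      have hlog0 : 0 ≤ Real.log n := Real.log_nonneg hnR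
      have h5 : w n * Real.log n ≤ η (k + 1) ^ 2 / 64 * m (k + 1) := by
        have h6 : w n * Real.log n ≤ η (k + 1) ^ 2 / 400 * Real.log n :=
          mul_le_mul_of_nonneg_right hwn hlog0
        have h7 : η (k + 1) ^ 2 / 400 * Real.log n ≤ η (k + 1) ^ 2 / 400 * (4.4 * m (k + 1)) :=
          mul_le_mul_of_nonneg_left hlog (by positivity)
        have h8 : (0 : ℝ) ≤ η (k + 1) ^ 2 * m (k + 1) := by positivity
        nlinarith
      linarith
    linarith

/-- **Power decay is sharp.** -/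
theorem exists_sharp (w : ℕ → ℝ) (hw : Tendsto w atTop (𝓝 0)) :
    ∃ (F : Set ℂ) (μ : Measure ℂ) (C : ℝ), IsClosed F ∧ F ⊆ sphere 0 1 ∧ ¬ SidonOn F ∧
      IsProbabilityMeasure μ ∧ (∀ᵐ z ∂μ, z ∈ F) ∧
      ∀ n : ℕ, 1 ≤ n → ‖∫ z, z ^ n ∂μ‖ ≤ C * (n : ℝ) ^ (-w n) := by
  classical
  obtain ⟨s, m, η, h, hwk⟩ := exists_par w hw
  set N₀ : ℕ := 3 ^ s 1 with hN₀
  set C : ℝ := 9 + ∑ n ∈ Finset.range N₀, (n : ℝ) ^ (w n) with hC
  have hsum0 : 0 ≤ ∑ n ∈ Finset.range N₀, (n : ℝ) ^ (w n) :=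
    Finset.sum_nonneg fun n _ => by positivity
  obtain ⟨ν, hν, hν1, hν2⟩ := exists_limit (mu s m η) (mu_prob h) (mu_norm h)
    (fun k => {z | ‖P (s (k + 1)) (m (k + 1)) z‖ ≤ η (k + 1)}) (fun k => by
      refine isClosed_le ?_ continuous_const
      unfold P
      fun_prop) (fun k => by
      filter_upwards [eventually_gt_atTop (k + 1)] with j hj
      filter_upwards [mu_ae h j] with z hz
      obtain ⟨a, ha, rfl⟩ := hz
      exact Q_P h hj ha) (fun n => C * (n : ℝ) ^ (-w n)) (fun n hn => by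
      have hnR : (1 : ℝ) ≤ n := by exact_mod_cast hn
      have hn0 : (0 : ℝ) < n := by linarith
      have hpos : 0 < (n : ℝ) ^ (-w n) := by positivity
      rcases lt_or_ge (n ^ 2) (3 ^ s 1) with h0 | h0
      · refine Eventually.of_forall fun j => ?_
        refine (mu_int_le_one h j n).trans ?_
        have h1 : (n : ℝ) ^ (w n) ≤ C := by
          have h2 : n ∈ Finset.range N₀ := by
            rw [Finset.mem_range]
            nlinarith
          have h3 := Finset.single_le_sum (f := fun n : ℕ => (n : ℝ) ^ (w n))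
            (fun i _ => by positivity) h2
          linarith
        calc (1 : ℝ) = (n : ℝ) ^ (w n) * (n : ℝ) ^ (-w n) := by
              rw [← Real.rpow_add hn0]
              simp
          _ ≤ C * (n : ℝ) ^ (-w n) := mul_le_mul_of_nonneg_right h1 hpos.le
      · -- the range of n
        have hex : ∃ k, n ^ 2 < 3 ^ s (k + 1) := by
          refine ⟨n ^ 2, ?_⟩
          calc n ^ 2 < 3 ^ (n ^ 2) := Nat.lt_pow_self (by norm_num)
            _ ≤ 3 ^ s (n ^ 2 + 1) := Nat.pow_le_pow_right (by norm_num) (by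
                have := s_ge h (n ^ 2 + 1)
                omega)
        have h1 := Nat.find_spec hex
        have h2 : Nat.find hex ≠ 0 := by
          intro h3
          rw [h3] at h1
          exact absurd h1 (not_lt.2 h0)
        obtain ⟨k, hk⟩ := Nat.exists_eq_succ_of_ne_zero h2
        have h3 : ¬ n ^ 2 < 3 ^ s (k + 1) := Nat.find_min hex (by omega)
        rw [hk] at h1
        filter_upwards [eventually_ge_atTop (k + 2)] with j hj
        refine (range_bound h hwk (not_lt.1 h3) h1 hj).trans ?_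
        exact mul_le_mul_of_nonneg_right (by linarith) hpos.le)
  refine ⟨E s m η, ν, C, isClosed_E s m η, fun z hz => by simpa using hz.1, not_sidonOn_E h, hν, ?_,
    hν2⟩
  filter_upwards [hν1] with z hz
  exact hz

end Forcing.SD
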